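import Pool.Agent.Lib.MP_bd0f13_lc.Defs

/-!
# The gadget, abstractly
-/

namespace Pool.Agent.Lib.MP_bd0f13_lc

/-- position of the woman `a` of the own group in the list of a man of type `i` -/
def rho : Fin 3 → Fin 3 → ℕ := ![![1, 0, 2], ![2, 0, 1], ![1, 2, 0]]

/-- the three internal matchings of a group (man ↦ woman) -/
def tau : Fin 3 → Fin 3 → Fin 3 := ![![0, 1, 2], ![1, 0, 2], ![1, 2, 0]]

/-- their inverses (woman ↦ man) -/
def tau' : Fin 3 → Fin 3 → Fin 3 := ![![0, 1, 2], ![1, 0, 2], ![2, 0, 1]]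

/-- potential of the envy among the men of a group -/
def phi : Fin 3 → Fin 3 → ℕ := ![![1, 0, 0], ![0, 1, 0], ![0, 1, 2]]

lemma tau_tau' : ∀ c j, tau c (tau' c j) = j := by decide
lemma tau'_tau : ∀ c j, tau' c (tau c j) = j := by decide
lemma tau'_zero : ∀ c, tau' c 0 = c := by decide

lemma phi_lt : ∀ c i i', rho i (tau c i') < rho i (tau c i) → phi c i' < phi c i := by decide

/-- the perfect matchings of a group without blocking pair of men -/
lemma eq_tau : ∀ s : Fin 3 → Fin 3, (∀ i j, s i = s j → i = j) →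
    (∀ i j, ¬ (rho i (s j) < rho i (s i) ∧ rho j (s i) < rho j (s j))) →
    ∀ c, s c = 0 → s = tau c := by decide

variable {V α : Type}

/-- What is needed of the preferences: the agents of each sex are `e (v, i)`. -/
structure Prefs [LinearOrder V] (e : V × Fin 3 ≃ α) (G : SimpleGraph V)
    (mp wp : α → α → α → Prop) : Prop where
  m1 : ∀ v i a b, mp (e (v, i)) (e (v, a)) (e (v, b)) ↔ rho i a < rho i b
  m2 : ∀ v i a (x : V × Fin 3), x.1 ≠ v → mp (e (v, i)) (e (v, a)) (e x)
  m3 : ∀ v i a (x : V × Fin 3), x.1 ≠ v → ¬ mp (e (v, i)) (e x) (e (v, a))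
  m4 : ∀ v i (x y : V × Fin 3), x.1 ≠ v → y.1 ≠ v → x.1 < y.1 → mp (e (v, i)) (e x) (e y)
  w1 : ∀ v i (x : V × Fin 3), wp (e (v, 0)) (e x) (e (v, i)) ↔
    (x.2 < i ∧ (x.1 = v ∨ G.Adj v x.1)) ∨ (x.2 = i ∧ G.Adj v x.1)
  w2 : ∀ v j i (x : V × Fin 3), j ≠ 0 → (wp (e (v, j)) (e x) (e (v, i)) ↔ x.1 = v ∧ x.2 < i)

/-- no decreasing function along a cycle -/
lemma cycle_const {k : ℕ} (f : Fin k → ℕ) (h : ∀ i, f (finRotate k i) ≤ f i) :
    ∀ i, f (finRotate k i) = f i := by
  have hs : ∑ i, f (finRotate k i) = ∑ i, f i := Equiv.sum_comp (finRotate k) f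
  intro i
  by_contra hne
  have : ∑ i, f (finRotate k i) < ∑ i, f i :=
    Finset.sum_lt_sum (fun i _ => h i) ⟨i, Finset.mem_univ _, lt_of_le_of_ne (h i) hne⟩
  omega

/-- two agents who want to swap -/
lemma blocks_two {α β : Type} {pref : α → β → β → Prop} {M : α → β} {a b : α} (hab : a ≠ b)
    (h1 : pref a (M b) (M a)) (h2 : pref b (M a) (M b)) : Blocks pref M 2 := by
  refine ⟨![a, b], ?_, ?_⟩
  · intro i j h
    fin_cases i <;> fin_cases j <;> simp_all
  · intro i
    have h0 : finRotate 2 0 = 1 := by decide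
    have h1' : finRotate 2 1 = 0 := by decide
    fin_cases i
    · simpa [h0] using h1
    · simpa [h1'] using h2

/-- the matching that belongs to a colouring -/
def matchOf (e : V × Fin 3 ≃ α) (c : V → Fin 3) : Equiv.Perm α where
  toFun x := e ((e.symm x).1, tau (c (e.symm x).1) (e.symm x).2)
  invFun x := e ((e.symm x).1, tau' (c (e.symm x).1) (e.symm x).2)
  left_inv x := by simp [tau'_tau]
  right_inv x := by simp [tau_tau']

lemma matchOf_apply (e : V × Fin 3 ≃ α) (c : V → Fin 3) (v : V) (i : Fin 3) :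
    matchOf e c (e (v, i)) = e (v, tau (c v) i) := by
  simp [matchOf]

lemma matchOf_symm_apply (e : V × Fin 3 ≃ α) (c : V → Fin 3) (v : V) (i : Fin 3) :
    (matchOf e c).symm (e (v, i)) = e (v, tau' (c v) i) := by
  rw [Equiv.symm_apply_eq, matchOf_apply, tau_tau']

/-- the colour of a vertex in a matching: the type of the partner of the woman `(v, 0)` -/
def col (e : V × Fin 3 ≃ α) (M : Equiv.Perm α) (v : V) : Fin 3 := (e.symm (M.symm (e (v, 0)))).2

lemma col_matchOf (e : V × Fin 3 ≃ α) (c : V → Fin 3) (v : V) : col e (matchOf e c) v = c v := by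
  simp [col, matchOf_symm_apply, tau'_zero]

section

variable [LinearOrder V] {e : V × Fin 3 ≃ α} {G : SimpleGraph V} {mp wp : α → α → α → Prop}

lemma internal [Fintype V] (P : Prefs e G mp wp) (M : Equiv.Perm α) (h : ¬ Blocks mp M 2) :
    ∀ v i, (e.symm (M (e (v, i)))).1 = v := by
  classical
  by_contra! hne
  obtain ⟨v0, i0, h0⟩ := hne
  let g : V × Fin 3 → V := fun m => (e.symm (M (e m))).1
  let S : Finset (V × Fin 3) := Finset.univ.filter fun m => g m ≠ m.1
  have hS : S.Nonempty := ⟨(v0, i0), by simp [S, g, h0]⟩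
  obtain ⟨m, hmS, hmax⟩ := S.exists_max_image g hS
  have hm : g m ≠ m.1 := by simpa [S] using hmS
  obtain ⟨i, hi⟩ : ∃ i, g (g m, i) ≠ g m := by
    by_contra! hall
    let f : Fin 3 → Fin 3 := fun i => (e.symm (M (e (g m, i)))).2
    have hf : Function.Injective f := fun i j hij => by
      have h1 : e.symm (M (e (g m, i))) = e.symm (M (e (g m, j))) :=
        Prod.ext ((hall i).trans (hall j).symm) hij
      have h2 : (g m, i) = (g m, j) :=
        e.injective (M.injective (e.symm.injective h1))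
      exact (Prod.ext_iff.1 h2).2
    obtain ⟨i, hi⟩ := Finite.surjective_of_injective hf (e.symm (M (e m))).2
    have h1 : e.symm (M (e (g m, i))) = e.symm (M (e m)) := Prod.ext (hall i) hi
    have h2 : (g m, i) = m := e.injective (M.injective (e.symm.injective h1))
    exact hm (Prod.ext_iff.1 h2).1
  have hlt : g (g m, i) < g m :=
    lt_of_le_of_ne (hmax (g m, i) (by simpa [S] using hi)) hi
  have e1 : M (e m) = e (g m, (e.symm (M (e m))).2) := (e.apply_symm_apply _).symm
  have e2 : M (e (g m, i)) = e (g (g m, i), (e.symm (M (e (g m, i)))).2) :=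
    (e.apply_symm_apply _).symm
  refine h (blocks_two (a := e m) (b := e (g m, i)) ?_ ?_ ?_)
  · intro h1
    exact hm (Prod.ext_iff.1 (e.injective h1)).1.symm
  · rw [e1, e2]
    by_cases h1 : g (g m, i) = m.1
    · rw [h1]
      exact P.m2 m.1 m.2 _ _ hm
    · exact P.m4 m.1 m.2 _ _ h1 hm hlt
  · rw [e1, e2]
    exact P.m2 _ _ _ _ hi

/-- the structure of the matchings without blocking pair of men -/
lemma structure_of [Fintype V] (P : Prefs e G mp wp) (M : Equiv.Perm α)
    (h : ¬ Blocks mp M 2) : M = matchOf e (col e M) := by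
  have hin := internal P M h
  have hM : ∀ v i, M (e (v, i)) = e (v, (e.symm (M (e (v, i)))).2) := fun v i => by
    conv_lhs => rw [← e.apply_symm_apply (M (e (v, i)))]
    rw [← Prod.eta (e.symm (M (e (v, i))))]
    rw [hin]
  have key : ∀ v i, (e.symm (M (e (v, i)))).2 = tau (col e M v) i := by
    intro v
    have hinj : Function.Injective fun i => (e.symm (M (e (v, i)))).2 := fun i j hij => by
      have h1 : M (e (v, i)) = M (e (v, j)) := by
        rw [hM v i, hM v j]; exact congrArg (fun t => e (v, t)) hij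
      exact (Prod.ext_iff.1 (e.injective (M.injective h1))).2
    obtain ⟨i0, hi0⟩ := Finite.surjective_of_injective hinj 0
    have hcol : col e M v = i0 := by
      have h1 : M (e (v, i0)) = e (v, 0) := by rw [hM v i0]; exact congrArg (fun t => e (v, t)) hi0
      rw [col, ← h1]; simp
    have h3 := eq_tau (fun i => (e.symm (M (e (v, i)))).2) (fun i j hij => hinj hij) ?_ i0 hi0
    · intro i; rw [hcol]; exact congrFun h3 i
    · rintro i j ⟨h1, h2⟩
      refine h (blocks_two (a := e (v, i)) (b := e (v, j)) ?_ ?_ ?_)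
      · intro h4
        have h5 : i = j := (Prod.ext_iff.1 (e.injective h4)).2
        rw [h5] at h1
        exact lt_irrefl _ h1
      · rw [hM v i, hM v j, P.m1]; exact h1
      · rw [hM v i, hM v j, P.m1]; exact h2
  refine Equiv.ext fun x => ?_
  obtain ⟨⟨v, i⟩, rfl⟩ := e.surjective x
  rw [matchOf_apply, hM v i, key v i]

lemma proper_of (P : Prefs e G mp wp) (c : V → Fin 3) (h : ¬ Blocks wp (matchOf e c).symm 2)
    {u v : V} (huv : G.Adj u v) : c u ≠ c v := by
  intro hc
  refine h (blocks_two (a := e (u, 0)) (b := e (v, 0)) ?_ ?_ ?_)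
  · intro h1
    exact huv.ne (Prod.ext_iff.1 (e.injective h1)).1
  · rw [matchOf_symm_apply, matchOf_symm_apply, tau'_zero, tau'_zero, P.w1]
    exact Or.inr ⟨hc.symm, huv⟩
  · rw [matchOf_symm_apply, matchOf_symm_apply, tau'_zero, tau'_zero, P.w1]
    exact Or.inr ⟨hc, huv.symm⟩

lemma no_men_cycle (P : Prefs e G mp wp) (c : V → Fin 3) (k : ℕ) (hk : 2 ≤ k) :
    ¬ Blocks mp (matchOf e c) k := by
  rintro ⟨a, ha, hb⟩
  have hstep : ∀ i, (e.symm (a (finRotate k i))).1 = (e.symm (a i)).1 ∧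
      phi (c (e.symm (a i)).1) (e.symm (a (finRotate k i))).2 <
        phi (c (e.symm (a i)).1) (e.symm (a i)).2 := by
    intro i
    have h1 := hb i
    obtain ⟨⟨v, p⟩, hvp⟩ := e.surjective (a i)
    obtain ⟨⟨v', p'⟩, hvp'⟩ := e.surjective (a (finRotate k i))
    rw [← hvp, ← hvp', matchOf_apply, matchOf_apply] at h1
    rw [← hvp, ← hvp', e.symm_apply_apply, e.symm_apply_apply]
    have h2 : v' = v := by
      by_contra hne
      exact P.m3 v p _ (v', tau (c v') p') hne h1
    subst h2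
    exact ⟨rfl, phi_lt _ _ _ ((P.m1 _ _ _ _).1 h1)⟩
  have h3 := cycle_const (fun i => phi (c (e.symm (a i)).1) (e.symm (a i)).2) (fun i => by
    rw [(hstep i).1]; exact (hstep i).2.le)
  have h4 := h3 ⟨0, by omega⟩
  have h5 := hstep ⟨0, by omega⟩
  beta_reduce at h4
  rw [h5.1] at h4
  omega

lemma no_women_cycle (P : Prefs e G mp wp) (c : V → Fin 3) (hc : ∀ u v, G.Adj u v → c u ≠ c v)
    (k : ℕ) (hk : 2 ≤ k) : ¬ Blocks wp (matchOf e c).symm k := by
  rintro ⟨a, ha, hb⟩
  -- `h i` is the man held by the woman `a i`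
  have hstep : ∀ i, tau' (c (e.symm (a (finRotate k i))).1) (e.symm (a (finRotate k i))).2 ≤
        tau' (c (e.symm (a i)).1) (e.symm (a i)).2 ∧
      (tau' (c (e.symm (a (finRotate k i))).1) (e.symm (a (finRotate k i))).2 =
        tau' (c (e.symm (a i)).1) (e.symm (a i)).2 → (e.symm (a i)).2 = 0 ∧
          G.Adj (e.symm (a i)).1 (e.symm (a (finRotate k i))).1) := by
    intro i
    have h1 := hb i
    obtain ⟨⟨v, p⟩, hvp⟩ := e.surjective (a i)
    obtain ⟨⟨v', p'⟩, hvp'⟩ := e.surjective (a (finRotate k i))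
    rw [← hvp, ← hvp', matchOf_symm_apply, matchOf_symm_apply] at h1
    rw [← hvp, ← hvp', e.symm_apply_apply, e.symm_apply_apply]
    dsimp only
    by_cases hp : p = 0
    · subst hp
      rw [P.w1] at h1
      dsimp only at h1
      rcases h1 with ⟨h2, _⟩ | ⟨h2, h3⟩
      · exact ⟨h2.le, fun h => absurd h h2.ne⟩
      · exact ⟨h2.le, fun _ => ⟨rfl, h3⟩⟩
    · rw [P.w2 _ _ _ _ hp] at h1
      exact ⟨h1.2.le, fun h => absurd h h1.2.ne⟩
  have h3 := cycle_const
    (fun i => ((tau' (c (e.symm (a i)).1) (e.symm (a i)).2 : Fin 3) : ℕ)) (fun i => (hstep i).1)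
  have h4 : ∀ i, (e.symm (a i)).2 = 0 ∧
      G.Adj (e.symm (a i)).1 (e.symm (a (finRotate k i))).1 := fun i =>
    (hstep i).2 (Fin.ext (h3 i))
  have h5 := h4 ⟨0, by omega⟩
  have h6 := h4 (finRotate k ⟨0, by omega⟩)
  have h7 := Fin.ext (h3 ⟨0, by omega⟩)
  rw [h5.1, h6.1, tau'_zero, tau'_zero] at h7
  exact hc _ _ h5.2 h7.symm

end

end Pool.Agent.Lib.MP_bd0f13_lc
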