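import Mathlib

/-!
# Stable marriage: exchange-stable and coalition-exchange-stable matchings (problem MP_bd0f13_lc)
-/

namespace Pool.Agent.Lib.MP_bd0f13_lc

/-- A stable marriage instance with `n` men and `n` women, both named by `0, ..., n - 1`:
`man m r` is the woman at position `r` (position `0` is the best) of the preference list of the
man `m`, and `woman w r` is the man at position `r` of the preference list of the woman `w`. -/
structure SM (n : ℕ) where
  /-- the preference lists of the men -/
  man : Fin n → Equiv.Perm (Fin n)
  /-- the preference lists of the women -/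
  woman : Fin n → Equiv.Perm (Fin n)

/-- The agents (of one sex) have the preferences `pref` over the agents of the other sex, and
`M a` is the partner of `a`. There is an exchange-blocking coalition with exactly `k` members:
distinct agents `a 0, ..., a (k - 1)` such that `a i` prefers `M (a (i + 1))` to `M (a i)` for all
`i`, indices modulo `k`. -/
def Blocks {α β : Type} (pref : α → β → β → Prop) (M : α → β) (k : ℕ) : Prop :=
  ∃ a : Fin k → α, Function.Injective a ∧ ∀ i, pref (a i) (M (a (finRotate k i))) (M (a i))

namespace SM

variable {n : ℕ}

/-- Man `m` prefers the woman `w` to the woman `w'`. -/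
def ManPrefers (I : SM n) (m w w' : Fin n) : Prop := (I.man m).symm w < (I.man m).symm w'

/-- Woman `w` prefers the man `m` to the man `m'`. -/
def WomanPrefers (I : SM n) (w m m' : Fin n) : Prop := (I.woman w).symm m < (I.woman w).symm m'

/-- The matching in which `M m` is the wife of `m` has no exchange-blocking coalition with exactly
`k` members (all men or all women). -/
def NoCoalition (I : SM n) (M : Equiv.Perm (Fin n)) (k : ℕ) : Prop :=
  ¬ Blocks I.ManPrefers M k ∧ ¬ Blocks I.WomanPrefers M.symm k

/-- `M` is exchange-stable: no exchange-blocking coalition with two members. -/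
def ExchangeStable (I : SM n) (M : Equiv.Perm (Fin n)) : Prop := I.NoCoalition M 2

/-- `M` is coalition-exchange-stable: no exchange-blocking coalition with two or more members. -/
def CoalitionExchangeStable (I : SM n) (M : Equiv.Perm (Fin n)) : Prop :=
  ∀ k, 2 ≤ k → I.NoCoalition M k

/-- The number of exchange-blocking pairs of `M`: unordered pairs of men who both prefer the wife of
the other one, and unordered pairs of women who both prefer the husband of the other one. -/
noncomputable def blockingPairs (I : SM n) (M : Equiv.Perm (Fin n)) : ℕ :=
  {p : Fin n × Fin n | p.1 < p.2 ∧ I.ManPrefers p.1 (M p.2) (M p.1) ∧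
      I.ManPrefers p.2 (M p.1) (M p.2)}.ncard +
    {p : Fin n × Fin n | p.1 < p.2 ∧ I.WomanPrefers p.1 (M.symm p.2) (M.symm p.1) ∧
      I.WomanPrefers p.2 (M.symm p.1) (M.symm p.2)}.ncard

/-- The number of agents that take part in an exchange-blocking pair of `M`. -/
noncomputable def blockingAgents (I : SM n) (M : Equiv.Perm (Fin n)) : ℕ :=
  {m : Fin n | ∃ m', I.ManPrefers m (M m') (M m) ∧ I.ManPrefers m' (M m) (M m')}.ncard +
    {w : Fin n | ∃ w', I.WomanPrefers w (M.symm w') (M.symm w) ∧
      I.WomanPrefers w' (M.symm w) (M.symm w')}.ncard

/-- The instance written down: the preference lists of the men `0, ..., n - 1` and those of the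
women `0, ..., n - 1`. -/
def code (I : SM n) : List (List ℕ) × List (List ℕ) :=
  (List.ofFn fun m => List.ofFn fun r => (I.man m r : ℕ),
    List.ofFn fun w => List.ofFn fun r => (I.woman w r : ℕ))

end SM

/-- `E` is a list of the edges of the graph `G` on the vertices `0, ..., N - 1`: two vertices are
adjacent exactly when the pair of them is in `E`, in one order or the other. -/
def Codes (N : ℕ) (E : List (ℕ × ℕ)) (G : SimpleGraph (Fin N)) : Prop :=
  ∀ u v : Fin N, G.Adj u v ↔ ((u : ℕ), (v : ℕ)) ∈ E ∨ ((v : ℕ), (u : ℕ)) ∈ E

/-- The number of edges of `G` whose two ends get the same colour from `c`. -/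
noncomputable def monochromatic {N : ℕ} (G : SimpleGraph (Fin N)) (c : Fin N → Fin 3) : ℕ :=
  {p : Fin N × Fin N | p.1 < p.2 ∧ G.Adj p.1 p.2 ∧ c p.1 = c p.2}.ncard

end Pool.Agent.Lib.MP_bd0f13_lc
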