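import Pool.Agent.Lib.MP_bd0f13_lc.Inst
import Pool.Agent.Lib.MP_634427_lc.Data

/-!
# The reduction
-/

namespace Pool.Agent.Lib.MP_bd0f13_lc

variable {N : ℕ} {E : List (ℕ × ℕ)} {G : SimpleGraph (Fin N)}

lemma code_ne {v : ℕ} {x : Fin N × Fin 3} (i : ℕ) (h : (x.1 : ℕ) ≠ v) :
    (x.2 + 3 * x.1 : ℕ) ∉ manPre v i := by
  rw [mem_manPre]
  have := x.2.2
  omega

lemma code_mem (v i : ℕ) (a : Fin 3) : (a + 3 * v : ℕ) ∈ manPre v i := by
  rw [mem_manPre]
  have := a.2
  omega

lemma code_lt (x : Fin N × Fin 3) : (x.2 + 3 * x.1 : ℕ) < N * 3 := by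
  have := x.1.2
  have := x.2.2
  omega

/-- the woman `(v, 0)` -/
lemma w1_aux (hG : Codes N E G) (v : Fin N) (i : Fin 3) (x : Fin N × Fin 3) :
    (complete (N * 3) (womanPre N E v 0)).idxOf (x.2 + 3 * x.1 : ℕ) <
        (complete (N * 3) (womanPre N E v 0)).idxOf (i + 3 * v : ℕ) ↔
      (x.2 < i ∧ (x.1 = v ∨ G.Adj v x.1)) ∨ (x.2 = i ∧ G.Adj v x.1) := by
  have hn : (complete (N * 3) (womanPre N E v 0)).Nodup :=
    (complete_perm (nodup_womanPre hG v 0) (lt_of_mem_womanPre hG v 0)).nodup_iff.2 List.nodup_range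
  have hb : ∀ c : ℕ, c < 3 → ((x.2 + 3 * x.1 : ℕ) ∈ block N E v c ↔
      (x.2 : ℕ) = c ∧ (x.1 = v ∨ G.Adj v x.1)) := fun c hc => by
    rw [mem_block hG]
    have := x.2.2
    constructor
    · rintro ⟨u, h1, h2⟩
      have h3 : x.1 = u := Fin.ext (by omega)
      exact ⟨by omega, h3 ▸ h2⟩
    · rintro ⟨h1, h2⟩
      exact ⟨x.1, by omega, h2⟩
  have hm : ∀ c : ℕ, c < 3 → ((x.2 + 3 * x.1 : ℕ) ∈ (nbrs N E v).map (fun u => c + 3 * u) ↔
      (x.2 : ℕ) = c ∧ G.Adj v x.1) := fun c hc => by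
    rw [mem_block_map hG]
    have := x.2.2
    constructor
    · rintro ⟨u, h1, h2⟩
      have h3 : x.1 = u := Fin.ext (by omega)
      exact ⟨by omega, h3 ▸ h2⟩
    · rintro ⟨h1, h2⟩
      exact ⟨x.1, by omega, h2⟩
  set rest := (List.range (N * 3)).filter
    (fun x => !((womanPre N E v 0).any fun y => decide (y = x))) with hrest
  have hl : complete (N * 3) (womanPre N E v 0) =
      (((nbrs N E v).map (fun u => 0 + 3 * u) ++ [0 + 3 * (v : ℕ)]) ++
        (((nbrs N E v).map (fun u => 1 + 3 * u) ++ [1 + 3 * (v : ℕ)]) ++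
          ((nbrs N E v).map (fun u => 2 + 3 * u) ++ [2 + 3 * (v : ℕ)]))) ++ rest := rfl
  fin_cases i
  · rw [idxOf_lt_iff (p := (nbrs N E v).map (fun u => 0 + 3 * u))
      (s := block N E v 1 ++ block N E v 2 ++ rest) (by
        rw [hl]; simp [block]) hn]
    rw [hm 0 (by omega)]
    simp only [Fin.zero_eta, Fin.isValue, not_lt_zero, false_and, false_or, Fin.ext_iff,
      Fin.val_zero]
  · rw [idxOf_lt_iff (p := block N E v 0 ++ (nbrs N E v).map (fun u => 1 + 3 * u))
      (s := block N E v 2 ++ rest) (by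
        rw [hl]; simp [block]) hn]
    rw [List.mem_append, hb 0 (by omega), hm 1 (by omega)]
    have h1 : x.2 < (1 : Fin 3) ↔ (x.2 : ℕ) = 0 := by
      rw [Fin.lt_def]
      have : ((1 : Fin 3) : ℕ) = 1 := rfl
      omega
    have h2 : x.2 = (1 : Fin 3) ↔ (x.2 : ℕ) = 1 := by
      rw [Fin.ext_iff]; rfl
    simp only [Fin.mk_one, Fin.isValue]
    rw [h1, h2]
  · rw [idxOf_lt_iff (p := block N E v 0 ++ (block N E v 1 ++ (nbrs N E v).map (fun u => 2 + 3 * u)))
      (s := rest) (by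
        rw [hl]; simp [block]) hn]
    rw [List.mem_append, List.mem_append, hb 0 (by omega), hb 1 (by omega), hm 2 (by omega)]
    have h1 : x.2 < (2 : Fin 3) ↔ (x.2 : ℕ) = 0 ∨ (x.2 : ℕ) = 1 := by
      rw [Fin.lt_def]
      have : ((2 : Fin 3) : ℕ) = 2 := rfl
      omega
    have h2 : x.2 = (2 : Fin 3) ↔ (x.2 : ℕ) = 2 := by
      rw [Fin.ext_iff]; rfl
    simp only [Fin.reduceFinMk, Fin.isValue]
    rw [h1, h2]
    tauto

/-- the women `(v, 1)` and `(v, 2)` -/
lemma w2_aux (hG : Codes N E G) (v : Fin N) (j : ℕ) (i : Fin 3) (x : Fin N × Fin 3) :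
    (complete (N * 3) (womanPre N E v (j + 1))).idxOf (x.2 + 3 * x.1 : ℕ) <
        (complete (N * 3) (womanPre N E v (j + 1))).idxOf (i + 3 * v : ℕ) ↔
      x.1 = v ∧ x.2 < i := by
  have hn : (complete (N * 3) (womanPre N E v (j + 1))).Nodup :=
    (complete_perm (nodup_womanPre hG v (j + 1))
      (lt_of_mem_womanPre hG v (j + 1))).nodup_iff.2 List.nodup_range
  set rest := (List.range (N * 3)).filter
    (fun x => !((womanPre N E v (j + 1)).any fun y => decide (y = x))) with hrest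
  have hl : complete (N * 3) (womanPre N E v (j + 1)) =
      [0 + 3 * (v : ℕ), 1 + 3 * (v : ℕ), 2 + 3 * (v : ℕ)] ++ rest := rfl
  have hx := x.2.2
  rw [Fin.ext_iff, Fin.lt_def]
  fin_cases i
  · rw [idxOf_lt_iff (p := []) (s := [1 + 3 * (v : ℕ), 2 + 3 * (v : ℕ)] ++ rest) (by
        rw [hl]; simp) hn]
    simp
  · rw [idxOf_lt_iff (p := [0 + 3 * (v : ℕ)]) (s := [2 + 3 * (v : ℕ)] ++ rest) (by
        rw [hl]; simp) hn]
    simp only [List.mem_cons, List.not_mem_nil, or_false]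
    omega
  · rw [idxOf_lt_iff (p := [0 + 3 * (v : ℕ), 1 + 3 * (v : ℕ)]) (s := rest) (by
        rw [hl]; simp) hn]
    simp only [List.mem_cons, List.not_mem_nil, or_false]
    omega

lemma prefs (hG : Codes N E G) :
    Prefs finProdFinEquiv G (inst hG).ManPrefers (inst hG).WomanPrefers where
  m1 v i a b := by
    rw [manPrefers_iff]
    dsimp only
    rw [idxOf_complete_of_mem (code_mem _ _ _), idxOf_complete_of_mem (code_mem _ _ _),
      idxOf_manPre, idxOf_manPre]
  m2 v i a x hx := by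
    rw [manPrefers_iff]
    exact idxOf_complete_lt (code_mem _ _ _) (code_ne _ fun h => hx (Fin.ext h))
  m3 v i a x hx := by
    rw [manPrefers_iff, not_lt]
    exact (idxOf_complete_lt (code_mem _ _ _) (code_ne _ fun h => hx (Fin.ext h))).le
  m4 v i x y hx hy hxy := by
    rw [manPrefers_iff]
    refine idxOf_complete_lt' (code_ne _ fun h => hx (Fin.ext h)) (code_ne _ fun h => hy (Fin.ext h))
      (code_lt y) ?_
    have h1 : (x.1 : ℕ) < y.1 := hxy
    have := x.2.2
    omega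
  w1 v i x := by
    rw [womanPrefers_iff]
    exact w1_aux hG v i x
  w2 v j i x hj := by
    rw [womanPrefers_iff]
    obtain ⟨j', hj'⟩ : ∃ j' : ℕ, (j : ℕ) = j' + 1 :=
      Nat.exists_eq_succ_of_ne_zero fun h => hj (Fin.ext h)
    rw [hj']
    exact w2_aux hG v j' i x

theorem exchange_iff_coalition (hG : Codes N E G) (M : Equiv.Perm (Fin (N * 3))) :
    (inst hG).ExchangeStable M ↔ (inst hG).CoalitionExchangeStable M := by
  constructor
  · rintro ⟨h1, h2⟩ k hk
    have h3 := structure_of (prefs hG) M h1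
    rw [h3] at h2 ⊢
    exact ⟨no_men_cycle (prefs hG) _ k hk,
      no_women_cycle (prefs hG) _ (fun u v huv => proper_of (prefs hG) _ h2 huv) k hk⟩
  · exact fun h => h 2 le_rfl

/-- the coalition-exchange-stable matchings are the proper colourings with three colours -/
noncomputable def equivColoring (hG : Codes N E G) :
    {M // (inst hG).CoalitionExchangeStable M} ≃ G.Coloring (Fin 3) where
  toFun M := SimpleGraph.Coloring.mk (col finProdFinEquiv M.1) (fun {u v} huv => by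
    have h3 := structure_of (prefs hG) M.1 (M.2 2 le_rfl).1
    have h2 := (M.2 2 le_rfl).2
    rw [h3] at h2
    exact proper_of (prefs hG) _ h2 huv)
  invFun c := ⟨matchOf finProdFinEquiv c, fun k hk => ⟨no_men_cycle (prefs hG) _ k hk,
    no_women_cycle (prefs hG) _ (fun u v huv => c.valid huv) k hk⟩⟩
  left_inv M := Subtype.ext (structure_of (prefs hG) M.1 (M.2 2 le_rfl).1).symm
  right_inv c := RelHom.ext fun v => col_matchOf _ _ _

lemma equivColoring_apply (hG : Codes N E G)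
    (M : {M // (inst hG).CoalitionExchangeStable M}) (v : Fin N) :
    equivColoring hG M v = (M.1.symm (finProdFinEquiv (v, 0))).modNat := rfl

end Pool.Agent.Lib.MP_bd0f13_lc
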