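import Pool.Agent.Lib.MP_bd0f13_lc.Lists

/-!
# The instance of a graph

The agents `3 v, 3 v + 1, 3 v + 2` form the group of the vertex `v`.
-/

namespace Pool.Agent.Lib.MP_bd0f13_lc

/-- first choices of the man `(v, i)` -/
def manPre (v : ℕ) : ℕ → List ℕ
  | 0 => [1 + 3 * v, 0 + 3 * v, 2 + 3 * v]
  | 1 => [1 + 3 * v, 2 + 3 * v, 0 + 3 * v]
  | _ => [2 + 3 * v, 0 + 3 * v, 1 + 3 * v]

/-- is `uv` an edge? -/
def joined (E : List (ℕ × ℕ)) (u v : ℕ) : Bool :=
  E.any fun p => (decide (p.1 = u) && decide (p.2 = v)) || (decide (p.1 = v) && decide (p.2 = u))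

/-- the neighbours of `v` -/
def nbrs (N : ℕ) (E : List (ℕ × ℕ)) (v : ℕ) : List ℕ :=
  (List.range N).filter fun u => joined E u v

/-- the men `(u, c)`, `u` a neighbour of `v`, and then `(v, c)` -/
def block (N : ℕ) (E : List (ℕ × ℕ)) (v c : ℕ) : List ℕ :=
  (nbrs N E v).map (fun u => c + 3 * u) ++ [c + 3 * v]

/-- first choices of the woman `(v, j)` -/
def womanPre (N : ℕ) (E : List (ℕ × ℕ)) (v : ℕ) : ℕ → List ℕ
  | 0 => block N E v 0 ++ (block N E v 1 ++ block N E v 2)
  | _ => [0 + 3 * v, 1 + 3 * v, 2 + 3 * v]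

lemma joined_iff {E : List (ℕ × ℕ)} {u v : ℕ} : joined E u v = true ↔ (u, v) ∈ E ∨ (v, u) ∈ E := by
  simp only [joined, List.any_eq_true, Bool.or_eq_true, Bool.and_eq_true, decide_eq_true_eq]
  constructor
  · rintro ⟨⟨a, b⟩, hp, ⟨rfl, rfl⟩ | ⟨rfl, rfl⟩⟩
    · exact Or.inl hp
    · exact Or.inr hp
  · rintro (h | h)
    · exact ⟨_, h, Or.inl ⟨rfl, rfl⟩⟩
    · exact ⟨_, h, Or.inr ⟨rfl, rfl⟩⟩

variable {N : ℕ} {E : List (ℕ × ℕ)} {G : SimpleGraph (Fin N)}

lemma mem_nbrs (hG : Codes N E G) (v : Fin N) (u : ℕ) :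
    u ∈ nbrs N E v ↔ ∃ u' : Fin N, (u' : ℕ) = u ∧ G.Adj v u' := by
  rw [nbrs, List.mem_filter, List.mem_range, joined_iff]
  constructor
  · rintro ⟨hu, h⟩
    exact ⟨⟨u, hu⟩, rfl, ((hG ⟨u, hu⟩ v).2 h).symm⟩
  · rintro ⟨u', rfl, h⟩
    exact ⟨u'.2, (hG u' v).1 h.symm⟩

lemma nodup_nbrs (N : ℕ) (E : List (ℕ × ℕ)) (v : ℕ) : (nbrs N E v).Nodup :=
  List.nodup_range.filter _

lemma length_nbrs (hG : Codes N E G) (v : Fin N) :
    (nbrs N E v).length = (G.neighborSet v).ncard := by
  classical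
  rw [← List.toFinset_card_of_nodup (nodup_nbrs N E v)]
  have h1 : ((G.neighborSet v).toFinite.toFinset.map Fin.valEmbedding) = (nbrs N E v).toFinset := by
    ext u
    simp only [Finset.mem_map, Set.Finite.mem_toFinset, SimpleGraph.mem_neighborSet,
      Fin.valEmbedding_apply, List.mem_toFinset, mem_nbrs hG]
    exact ⟨fun ⟨u', h1, h2⟩ => ⟨u', h2, h1⟩, fun ⟨u', h1, h2⟩ => ⟨u', h2, h1⟩⟩
  rw [← h1, Finset.card_map, Set.ncard_eq_toFinset_card _ (G.neighborSet v).toFinite]

lemma mem_block (hG : Codes N E G) (v : Fin N) {c x : ℕ} :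
    x ∈ block N E v c ↔ ∃ u : Fin N, x = c + 3 * u ∧ (u = v ∨ G.Adj v u) := by
  rw [block, List.mem_append, List.mem_map, List.mem_singleton]
  constructor
  · rintro (⟨u, hu, rfl⟩ | rfl)
    · obtain ⟨u', rfl, h⟩ := (mem_nbrs hG v u).1 hu
      exact ⟨u', rfl, Or.inr h⟩
    · exact ⟨v, rfl, Or.inl rfl⟩
  · rintro ⟨u, rfl, rfl | h⟩
    · exact Or.inr rfl
    · exact Or.inl ⟨u, (mem_nbrs hG v u).2 ⟨u, rfl, h⟩, rfl⟩

lemma mem_block_map (hG : Codes N E G) (v : Fin N) {c x : ℕ} :
    x ∈ (nbrs N E v).map (fun u => c + 3 * u) ↔ ∃ u : Fin N, x = c + 3 * u ∧ G.Adj v u := by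
  rw [List.mem_map]
  constructor
  · rintro ⟨u, hu, rfl⟩
    obtain ⟨u', rfl, h⟩ := (mem_nbrs hG v u).1 hu
    exact ⟨u', rfl, h⟩
  · rintro ⟨u, rfl, h⟩
    exact ⟨u, (mem_nbrs hG v u).2 ⟨u, rfl, h⟩, rfl⟩

lemma nodup_block (hG : Codes N E G) (v : Fin N) (c : ℕ) : (block N E v c).Nodup := by
  refine List.nodup_append.2 ⟨(nodup_nbrs N E v).map fun a b h => ?_, List.nodup_singleton _, ?_⟩
  · beta_reduce at h; omega
  · rintro a ha b hb rfl
    obtain ⟨u, h1, h2⟩ := (mem_block_map hG v).1 ha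
    rw [List.mem_singleton] at hb
    have h3 : v = u := Fin.ext (by omega)
    exact h2.ne h3

lemma nodup_womanPre (hG : Codes N E G) (v : Fin N) (j : ℕ) : (womanPre N E v j).Nodup := by
  rcases j with _ | j
  · refine List.nodup_append.2 ⟨nodup_block hG v 0, List.nodup_append.2
      ⟨nodup_block hG v 1, nodup_block hG v 2, ?_⟩, ?_⟩
    · rintro a ha b hb rfl
      obtain ⟨u, h1, -⟩ := (mem_block hG v).1 ha
      obtain ⟨u', h2, -⟩ := (mem_block hG v).1 hb
      omega
    · rintro a ha b hb rfl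
      obtain ⟨u, h1, -⟩ := (mem_block hG v).1 ha
      rcases List.mem_append.1 hb with hb | hb
      · obtain ⟨u', h2, -⟩ := (mem_block hG v).1 hb
        omega
      · obtain ⟨u', h2, -⟩ := (mem_block hG v).1 hb
        omega
  · simp only [womanPre, List.nodup_cons, List.mem_cons, List.not_mem_nil, or_false,
      not_false_eq_true, List.nodup_nil, and_true]
    omega

lemma lt_of_mem_womanPre (hG : Codes N E G) (v : Fin N) (j : ℕ) :
    ∀ x ∈ womanPre N E v j, x < N * 3 := by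
  have hb : ∀ c < 3, ∀ x ∈ block N E v c, x < N * 3 := fun c hc x hx => by
    obtain ⟨u, rfl, -⟩ := (mem_block hG v).1 hx
    have := u.2
    omega
  intro x hx
  rcases j with _ | j
  · rcases List.mem_append.1 hx with hx | hx
    · exact hb 0 (by omega) x hx
    · rcases List.mem_append.1 hx with hx | hx
      · exact hb 1 (by omega) x hx
      · exact hb 2 (by omega) x hx
  · have := v.2
    simp only [womanPre, List.mem_cons, List.not_mem_nil, or_false] at hx
    omega

lemma nodup_manPre (v i : ℕ) : (manPre v i).Nodup := by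
  rcases i with _ | _ | i <;>
  · simp only [manPre, List.nodup_cons, List.mem_cons, List.not_mem_nil, or_false,
      not_false_eq_true, List.nodup_nil, and_true]
    omega

lemma mem_manPre {v i x : ℕ} : x ∈ manPre v i ↔ x = 0 + 3 * v ∨ x = 1 + 3 * v ∨ x = 2 + 3 * v := by
  rcases i with _ | _ | i <;>
  · simp only [manPre, List.mem_cons, List.not_mem_nil, or_false]
    omega

lemma lt_of_mem_manPre (v : Fin N) (i : ℕ) : ∀ x ∈ manPre v i, x < N * 3 := by
  intro x hx
  rw [mem_manPre] at hx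
  have := v.2
  omega

lemma length_manPre (v i : ℕ) : (manPre v i).length = 3 := by
  rcases i with _ | _ | i <;> rfl

lemma length_womanPre_le (hG : Codes N E G) (v : Fin N) (j : ℕ) :
    (womanPre N E v j).length ≤ 3 + 3 * (G.neighborSet v).ncard := by
  rcases j with _ | j
  · simp only [womanPre, block, List.length_append, List.length_map, List.length_singleton,
      length_nbrs hG v]
    omega
  · simp [womanPre]

/-- the instance of the graph `G` -/
noncomputable def inst (hG : Codes N E G) : SM (N * 3) where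
  man m := listPerm (complete (N * 3) (manPre (finProdFinEquiv.symm m).1 (finProdFinEquiv.symm m).2))
    (complete_perm (nodup_manPre _ _) (lt_of_mem_manPre _ _))
  woman w := listPerm
    (complete (N * 3) (womanPre N E (finProdFinEquiv.symm w).1 (finProdFinEquiv.symm w).2))
    (complete_perm (nodup_womanPre hG _ _) (lt_of_mem_womanPre hG _ _))

lemma inst_man (hG : Codes N E G) (v : Fin N) (i : Fin 3) :
    (inst hG).man (finProdFinEquiv (v, i)) = listPerm (complete (N * 3) (manPre v i))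
      (complete_perm (nodup_manPre _ _) (lt_of_mem_manPre _ _)) := by
  simp only [inst, Equiv.symm_apply_apply]

lemma inst_woman (hG : Codes N E G) (v : Fin N) (j : Fin 3) :
    (inst hG).woman (finProdFinEquiv (v, j)) = listPerm (complete (N * 3) (womanPre N E v j))
      (complete_perm (nodup_womanPre hG _ _) (lt_of_mem_womanPre hG _ _)) := by
  simp only [inst, Equiv.symm_apply_apply]

lemma manPrefers_iff (hG : Codes N E G) (v : Fin N) (i : Fin 3) (x y : Fin N × Fin 3) :
    (inst hG).ManPrefers (finProdFinEquiv (v, i)) (finProdFinEquiv x) (finProdFinEquiv y) ↔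
      (complete (N * 3) (manPre v i)).idxOf (x.2 + 3 * x.1 : ℕ) <
        (complete (N * 3) (manPre v i)).idxOf (y.2 + 3 * y.1 : ℕ) := by
  rw [SM.ManPrefers, inst_man, listPerm_lt]
  rfl

lemma womanPrefers_iff (hG : Codes N E G) (v : Fin N) (j : Fin 3) (x y : Fin N × Fin 3) :
    (inst hG).WomanPrefers (finProdFinEquiv (v, j)) (finProdFinEquiv x) (finProdFinEquiv y) ↔
      (complete (N * 3) (womanPre N E v j)).idxOf (x.2 + 3 * x.1 : ℕ) <
        (complete (N * 3) (womanPre N E v j)).idxOf (y.2 + 3 * y.1 : ℕ) := by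
  rw [SM.WomanPrefers, inst_woman, listPerm_lt]
  rfl

lemma idxOf_manPre (v : ℕ) (i a : Fin 3) : (manPre v i).idxOf (a + 3 * v : ℕ) = rho i a := by
  fin_cases i <;> fin_cases a <;> simp [manPre, rho]

end Pool.Agent.Lib.MP_bd0f13_lc
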