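import Pool.Agent.Lib.MP_bd0f13_lc.Abs

/-!
# Preference lists
-/

namespace Pool.Agent.Lib.MP_bd0f13_lc

/-- complete a list of first choices by all the other agents in increasing order -/
def complete (n : ℕ) (pre : List ℕ) : List ℕ :=
  pre ++ (List.range n).filter fun x => !(pre.any fun y => decide (y = x))

lemma mem_rest {n : ℕ} {pre : List ℕ} {x : ℕ} :
    x ∈ (List.range n).filter (fun x => !(pre.any fun y => decide (y = x))) ↔ x < n ∧ x ∉ pre := by
  simp only [List.mem_filter, List.mem_range, Bool.not_eq_true', List.any_eq_false,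
    decide_eq_true_eq]
  refine and_congr_right fun _ => ⟨fun h hx => h x hx rfl, fun h y hy hyx => h (hyx ▸ hy)⟩

lemma complete_perm {n : ℕ} {pre : List ℕ} (hn : pre.Nodup) (hlt : ∀ x ∈ pre, x < n) :
    (complete n pre).Perm (List.range n) := by
  refine (List.perm_ext_iff_of_nodup ?_ List.nodup_range).2 fun x => ?_
  · refine List.nodup_append.2 ⟨hn, (List.nodup_range).filter _, ?_⟩
    rintro a ha b hb rfl
    exact (mem_rest.1 hb).2 ha
  · rw [complete, List.mem_append, mem_rest, List.mem_range]
    by_cases h : x ∈ pre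
    · simp [h, hlt x h]
    · simp [h]

/-- the permutation that a list of the numbers below `n` gives -/
noncomputable def listPerm {n : ℕ} (l : List ℕ) (h : l.Perm (List.range n)) :
    Equiv.Perm (Fin n) :=
  Equiv.ofBijective (fun r => ⟨l[(r : ℕ)]'(by rw [h.length_eq, List.length_range]; exact r.2), by
      have := h.mem_iff.1 (List.getElem_mem (l := l) (n := (r : ℕ))
        (by rw [h.length_eq, List.length_range]; exact r.2))
      simpa using this⟩)
    (Finite.injective_iff_bijective.1 fun r s hrs => by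
      have h1 := Fin.val_eq_of_eq hrs
      exact Fin.ext (((h.nodup_iff.2 List.nodup_range).getElem_inj_iff).1 h1))

lemma listPerm_apply {n : ℕ} (l : List ℕ) (h : l.Perm (List.range n)) (r : Fin n)
    (hr : (r : ℕ) < l.length) : (listPerm l h r : ℕ) = l[(r : ℕ)] := rfl

lemma ofFn_listPerm {n : ℕ} (l : List ℕ) (h : l.Perm (List.range n)) :
    (List.ofFn fun r => (listPerm l h r : ℕ)) = l := by
  have hl : l.length = n := by rw [h.length_eq, List.length_range]
  refine List.ext_getElem (by simp [hl]) fun i h1 h2 => ?_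
  rw [List.getElem_ofFn, listPerm_apply _ _ _ (by simpa using h2)]

lemma listPerm_symm {n : ℕ} (l : List ℕ) (h : l.Perm (List.range n)) (x : Fin n) :
    ((listPerm l h).symm x : ℕ) = l.idxOf (x : ℕ) := by
  have hx : (x : ℕ) ∈ l := h.mem_iff.2 (List.mem_range.2 x.2)
  have hlt : l.idxOf (x : ℕ) < l.length := List.idxOf_lt_length_iff.2 hx
  have hn : l.idxOf (x : ℕ) < n := by
    rw [h.length_eq, List.length_range] at hlt; exact hlt
  have : (listPerm l h).symm x = ⟨l.idxOf (x : ℕ), hn⟩ := by
    rw [Equiv.symm_apply_eq]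
    refine Fin.ext ?_
    rw [listPerm_apply _ _ _ hlt]
    exact (List.getElem_idxOf hlt).symm
  rw [this]

lemma listPerm_lt {n : ℕ} (l : List ℕ) (h : l.Perm (List.range n)) (x y : Fin n) :
    (listPerm l h).symm x < (listPerm l h).symm y ↔ l.idxOf (x : ℕ) < l.idxOf (y : ℕ) := by
  rw [Fin.lt_def, listPerm_symm, listPerm_symm]

/-! ### comparing positions -/

lemma idxOf_lt_iff {l p s : List ℕ} {x y : ℕ} (hl : l = p ++ y :: s) (hn : l.Nodup) :
    l.idxOf x < l.idxOf y ↔ x ∈ p := by
  subst hl
  have hy : y ∉ p := fun h =>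
    (List.nodup_append.1 hn).2.2 y h y (List.mem_cons_self) rfl
  have h1 : (p ++ y :: s).idxOf y = p.length := by
    rw [List.idxOf_append_of_notMem hy]; simp
  rw [h1]
  by_cases hx : x ∈ p
  · rw [List.idxOf_append_of_mem hx]
    exact ⟨fun _ => hx, fun _ => List.idxOf_lt_length_iff.2 hx⟩
  · rw [List.idxOf_append_of_notMem hx]
    exact ⟨fun h => by omega, fun h => absurd h hx⟩

lemma idxOf_complete_of_mem {n : ℕ} {pre : List ℕ} {x : ℕ} (hx : x ∈ pre) :
    (complete n pre).idxOf x = pre.idxOf x := List.idxOf_append_of_mem hx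

lemma idxOf_complete_lt {n : ℕ} {pre : List ℕ} {x y : ℕ} (hx : x ∈ pre) (hy : y ∉ pre) :
    (complete n pre).idxOf x < (complete n pre).idxOf y := by
  rw [complete, List.idxOf_append_of_mem hx, List.idxOf_append_of_notMem hy]
  have := List.idxOf_lt_length_iff.2 hx
  omega

lemma rest_pairwise (n : ℕ) (pre : List ℕ) :
    ((List.range n).filter (fun x => !(pre.any fun y => decide (y = x)))).Pairwise (· < ·) :=
  (List.pairwise_lt_range).filter _

lemma idxOf_complete_lt' {n : ℕ} {pre : List ℕ} {x y : ℕ} (hx : x ∉ pre) (hy : y ∉ pre)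
    (hyn : y < n) (hxy : x < y) :
    (complete n pre).idxOf x < (complete n pre).idxOf y := by
  rw [complete, List.idxOf_append_of_notMem hx, List.idxOf_append_of_notMem hy]
  have h1 := rest_pairwise n pre
  set l := (List.range n).filter (fun x => !(pre.any fun y => decide (y = x))) with hl
  have hx' : x ∈ l := mem_rest.2 ⟨hxy.trans hyn, hx⟩
  have hy' : y ∈ l := mem_rest.2 ⟨hyn, hy⟩
  have hix := List.idxOf_lt_length_iff.2 hx'
  have hiy := List.idxOf_lt_length_iff.2 hy'
  by_contra hcon
  have h2 : l.idxOf y ≤ l.idxOf x := by omega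
  have h3 : l[l.idxOf y] ≤ l[l.idxOf x] := by
    rcases h2.eq_or_lt with h4 | h4
    · exact le_of_eq (by congr 1)
    · exact ((List.pairwise_iff_getElem.1 h1) _ _ hiy hix h4).le
  rw [List.getElem_idxOf, List.getElem_idxOf] at h3
  omega

/-- behind the first choices the list is increasing -/
lemma listPerm_complete_increasing {n : ℕ} {pre : List ℕ}
    (h : (complete n pre).Perm (List.range n)) (r s : Fin n) (hr : pre.length ≤ r)
    (hrs : r < s) : listPerm _ h r < listPerm _ h s := by
  have hl : (complete n pre).length = n := by rw [h.length_eq, List.length_range]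
  have hr' : (r : ℕ) < (complete n pre).length := by rw [hl]; exact r.2
  have hs' : (s : ℕ) < (complete n pre).length := by rw [hl]; exact s.2
  rw [Fin.lt_def, listPerm_apply _ _ _ hr', listPerm_apply _ _ _ hs']
  have hrs' : (r : ℕ) < s := hrs
  unfold complete at hr' hs' ⊢
  rw [List.getElem_append_right hr, List.getElem_append_right (by omega)]
  exact (List.pairwise_iff_getElem.1 (rest_pairwise n pre)) _ _ _ _ (by omega)

end Pool.Agent.Lib.MP_bd0f13_lc
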