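import Pool.Agent.Lib.MP_bd0f13_lc.Final

/-!
# The reduction is computable in polynomial time
-/

namespace Pool.Agent.Lib.MP_bd0f13_lc

open Pool.Agent.Lib.MP_634427_lc

/-- the instance written down, computed from the number of vertices and the list of the edges -/
def reduction (p : ℕ × List (ℕ × ℕ)) : List (List ℕ) × List (List ℕ) :=
  ((List.range p.1).flatMap fun v => [complete (p.1 * 3) (manPre v 0),
      complete (p.1 * 3) (manPre v 1), complete (p.1 * 3) (manPre v 2)],
    (List.range p.1).flatMap fun v => [complete (p.1 * 3) (womanPre p.1 p.2 v 0),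
      complete (p.1 * 3) (womanPre p.1 p.2 v 1), complete (p.1 * 3) (womanPre p.1 p.2 v 2)])

lemma ofFn_groups {N : ℕ} {β : Type} (f : Fin (N * 3) → β) (g : ℕ → ℕ → β)
    (h : ∀ (v : Fin N) (j : Fin 3), f (finProdFinEquiv (v, j)) = g v j) :
    List.ofFn f = (List.range N).flatMap fun v => [g v 0, g v 1, g v 2] := by
  rw [List.ofFn_mul, List.flatMap_def]
  congr 1
  refine List.ext_getElem (by simp) fun v h1 h2 => ?_
  have hv : v < N := by simpa using h1
  rw [List.getElem_ofFn, List.getElem_map, List.getElem_range]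
  have h3 : ∀ j : Fin 3, f ⟨(⟨v, hv⟩ : Fin N) * 3 + j, by have := j.2; dsimp only; omega⟩ =
      g v j := fun j => by
    rw [← h ⟨v, hv⟩ j]
    congr 1
    refine Fin.ext ?_
    simp only [finProdFinEquiv_apply_val]
    omega
  simp only [List.ofFn_succ, List.ofFn_zero]
  refine congrArg₂ _ (h3 0) (congrArg₂ _ (h3 1) (congrArg₂ _ (h3 2) rfl))

lemma code_inst {N : ℕ} {E : List (ℕ × ℕ)} {G : SimpleGraph (Fin N)} (hG : Codes N E G) :
    reduction (N, E) = (inst hG).code := by
  rw [SM.code]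
  refine Prod.ext ?_ ?_
  · refine (ofFn_groups _ (fun v i => complete (N * 3) (manPre v i)) fun v i => ?_).symm
    rw [inst_man, ofFn_listPerm]
  · refine (ofFn_groups _ (fun v i => complete (N * 3) (womanPre N E v i)) fun v i => ?_).symm
    rw [inst_woman, ofFn_listPerm]

section

variable {γ : Type} [Enc γ]

lemma pt_complete {n : γ → ℕ} {pre : γ → List ℕ} (hn : PT n) (hp : PT pre) :
    PT fun c => complete (n c) (pre c) :=
  PT.append hp (PT.filter (p := fun c x => !((pre c).any fun y => decide (y = x))) (PT.range hn)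
    (PT.not (PT.any (p := fun (q : γ × ℕ) y => decide (y = q.2)) (hp.comp PT.fst)
      (PT.eqNat PT.snd (PT.snd' PT.fst)))))

lemma pt_num {v : γ → ℕ} (hv : PT v) (j : ℕ) : PT fun c => j + 3 * v c :=
  PT.add (PT.const j) (PT.mul (PT.const 3) hv)

lemma pt_manPre {v : γ → ℕ} (hv : PT v) (i : ℕ) : PT fun c => manPre (v c) i := by
  rcases i with _ | _ | i
  · exact PT.cons (pt_num hv 1) (PT.cons (pt_num hv 0) (PT.cons (pt_num hv 2) (PT.const [])))
  · exact PT.cons (pt_num hv 1) (PT.cons (pt_num hv 2) (PT.cons (pt_num hv 0) (PT.const [])))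
  · exact PT.cons (pt_num hv 2) (PT.cons (pt_num hv 0) (PT.cons (pt_num hv 1) (PT.const [])))

lemma pt_joined {E : γ → List (ℕ × ℕ)} {u v : γ → ℕ} (hE : PT E) (hu : PT u) (hv : PT v) :
    PT fun c => joined (E c) (u c) (v c) :=
  PT.any (p := fun (c : γ) (p : ℕ × ℕ) => (decide (p.1 = u c) && decide (p.2 = v c)) ||
      (decide (p.1 = v c) && decide (p.2 = u c))) hE
    (PT.or
      (PT.and (PT.eqNat (PT.fst' PT.snd) (hu.comp PT.fst))
        (PT.eqNat (PT.snd' PT.snd) (hv.comp PT.fst)))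
      (PT.and (PT.eqNat (PT.fst' PT.snd) (hv.comp PT.fst))
        (PT.eqNat (PT.snd' PT.snd) (hu.comp PT.fst))))

lemma pt_nbrs {N : γ → ℕ} {E : γ → List (ℕ × ℕ)} {v : γ → ℕ} (hN : PT N) (hE : PT E) (hv : PT v) :
    PT fun c => nbrs (N c) (E c) (v c) :=
  PT.filter (p := fun c u => joined (E c) u (v c)) (PT.range hN)
    (pt_joined (hE.comp PT.fst) PT.snd (hv.comp PT.fst))

lemma pt_block {N : γ → ℕ} {E : γ → List (ℕ × ℕ)} {v : γ → ℕ} (hN : PT N) (hE : PT E) (hv : PT v)
    (j : ℕ) : PT fun c => block (N c) (E c) (v c) j :=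
  PT.append (PT.map (f := fun (_ : γ) u => j + 3 * u) (pt_nbrs hN hE hv) (pt_num PT.snd j))
    (PT.cons (pt_num hv j) (PT.const []))

lemma pt_womanPre {N : γ → ℕ} {E : γ → List (ℕ × ℕ)} {v : γ → ℕ} (hN : PT N) (hE : PT E)
    (hv : PT v) (j : ℕ) : PT fun c => womanPre (N c) (E c) (v c) j := by
  rcases j with _ | j
  · exact PT.append (pt_block hN hE hv 0) (PT.append (pt_block hN hE hv 1) (pt_block hN hE hv 2))
  · exact PT.cons (pt_num hv 0) (PT.cons (pt_num hv 1) (PT.cons (pt_num hv 2) (PT.const [])))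

end

theorem pt_reduction : PT reduction := by
  have h3 : PT fun q : (ℕ × List (ℕ × ℕ)) × ℕ => q.1.1 * 3 :=
    PT.mul (PT.fst' PT.fst) (PT.const 3)
  refine PT.pair ?_ ?_
  · refine PT.flatMap (f := fun (p : ℕ × List (ℕ × ℕ)) v => [complete (p.1 * 3) (manPre v 0),
      complete (p.1 * 3) (manPre v 1), complete (p.1 * 3) (manPre v 2)]) (PT.range PT.fst) ?_
    exact PT.cons (pt_complete h3 (pt_manPre PT.snd 0))
      (PT.cons (pt_complete h3 (pt_manPre PT.snd 1))
        (PT.cons (pt_complete h3 (pt_manPre PT.snd 2)) (PT.const [])))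
  · refine PT.flatMap (f := fun (p : ℕ × List (ℕ × ℕ)) v =>
      [complete (p.1 * 3) (womanPre p.1 p.2 v 0), complete (p.1 * 3) (womanPre p.1 p.2 v 1),
        complete (p.1 * 3) (womanPre p.1 p.2 v 2)]) (PT.range PT.fst) ?_
    have hw : ∀ j, PT fun q : (ℕ × List (ℕ × ℕ)) × ℕ => womanPre q.1.1 q.1.2 q.2 j := fun j =>
      pt_womanPre (PT.fst' PT.fst) (PT.snd' PT.fst) PT.snd j
    exact PT.cons (pt_complete h3 (hw 0)) (PT.cons (pt_complete h3 (hw 1))
      (PT.cons (pt_complete h3 (hw 2)) (PT.const [])))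

end Pool.Agent.Lib.MP_bd0f13_lc
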